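import Mathlib
import Pool.Agent.V11167.RayDefs
import Pool.Agent.V11167.RayB

/-!
# A three-ray equipartition from an interior point that beats all boundary two-ray equipartitions
-/

namespace Pool.Agent.Results.MP_d05d56_co.InteriorWins

open Pool.Agent.V11167.RayDefs

/-- There are a convex region `C`, an interior point `P` and a three-ray equipartition from `P` with
boundary points `A 0, A 1, A 2` such that, for every `i`, two-ray equipartitions from `A i` exist and
every one of them has total cut length strictly smaller than the three-ray equipartition. -/
theorem result : ∃ (C : Set (ℝ × ℝ)) (P : ℝ × ℝ) (A : Fin 3 → ℝ × ℝ),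
    ConvexRegion C ∧ ThreeRay C P A ∧ ∀ i, (∃ B, TwoRay C (A i) B) ∧
      ∀ B, TwoRay C (A i) B → ∑ j, len (A i) (B j) < ∑ k, len P (A k) :=
  Pool.Agent.V11167.Ray.main

end Pool.Agent.Results.MP_d05d56_co.InteriorWins
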